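import Mathlib
import Pool.Agent.K4H74.ST.Exc
import Pool.Agent.K4H85.ST.Exact

/-!
# The sign theorem for invariants of Artin characters: definitions and statements of the pieces

`A` is an inductive invariant (`ArtinInvariant M`) which is trivial on the faithful linear characters
over totally complex fields (`TrivComplex A`). Aim: `A(χ) ^ 2` depends only on the restriction of `χ`
to the complex conjugations. `B` is the square of `A`.
-/

set_option autoImplicit false
set_option linter.unusedSectionVars false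

namespace Pool.Agent.W2helper23.SG

open NumberField NumberField.ComplexEmbedding Pool.Agent.R389 Pool.Agent.K4H74.ST
open Pool.Agent.H302R2 Pool.Agent.H302R3 Pool.Agent.H541R3.ART Pool.Agent.W446.AS

/-- the character `s` is `-1` at the (real) embedding `κ` of the base field -/
def Neg {F N : Type} [Field F] [Field N] [Algebra F N] (s : (N ≃ₐ[F] N) →* ℂˣ) (κ : F →+* ℂ) :
    Prop :=
  ∃ (φ : N →+* ℂ) (c : N ≃ₐ[F] N), IsConj φ c ∧ φ.comp (algebraMap F N) = κ ∧ s c = -1

/-- the value of the trivial character of `F` -/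
def b1 {M : Type} [CommGroup M] (B : ArtinInvariant M) (F : Type) [Field F] [NumberField F] : M :=
  B.val F F (fun _ => 1)

open Classical in
/-- the values of the sign characters over `F` are given by `G` -/
def Good {M : Type} [CommGroup M] (B : ArtinInvariant M) (F : Type) [Field F] [NumberField F]
    (G : (F →+* ℂ) → M) : Prop :=
  ∀ (N : Type) [Field N] [NumberField N] [Algebra F N] [IsGalois F N] (s : (N ≃ₐ[F] N) →* ℂˣ),
    Sg s → B.val F N (lc s) = b1 B F * ∏ κ : F →+* ℂ, if Neg s κ then (G κ)⁻¹ else 1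

/-- the square of an invariant -/
def sqInv {M : Type} [CommGroup M] (A : ArtinInvariant M) : ArtinInvariant M where
  val K L _ _ _ _ _ _ χ := A.val K L χ ^ 2
  val_add K L _ _ _ _ _ _ χ χ' h h' := by rw [A.val_add K L χ χ' h h', mul_pow]
  val_infl K L N _ _ _ _ _ _ _ _ _ _ _ _ χ h := by rw [A.val_infl K L N χ h]
  val_ind K F L _ _ _ _ _ _ _ _ _ _ _ _ χ h := by rw [A.val_ind K F L χ h]

/-- linear characters of `2`-power order have the value of a sign character with the same signs -/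
def LinOK {M : Type} [CommGroup M] (B : ArtinInvariant M) : Prop :=
  ∀ (K L : Type) [Field K] [NumberField K] [Field L] [NumberField L] [Algebra K L] [IsGalois K L]
    (ψ : (L ≃ₐ[K] L) →* ℂˣ) (k : ℕ), (∀ g, ψ g ^ (2 ^ k) = 1) →
    ∃ (N : Type) (_ : Field N) (_ : NumberField N) (_ : Algebra K N) (_ : Algebra L N)
      (_ : IsScalarTower K L N) (_ : IsGalois K N) (ε : (N ≃ₐ[K] N) →* ℂˣ), Sg ε ∧
      (∀ c ∈ CC K N, ε c = ψ (AlgEquiv.restrictNormalHom L c)) ∧
      B.val K L (lc ψ) = B.val K N (lc ε)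

open Classical in
/-- the value of `f` is given by the values at the complex conjugations -/
def Form {M : Type} [CommGroup M] (B : ArtinInvariant M) (F N : Type) [Field F] [NumberField F]
    [Field N] [NumberField N] [Algebra F N] [IsGalois F N] (G : (F →+* ℂ) → M)
    (f : (N ≃ₐ[F] N) → ℂ) : Prop :=
  ∃ (m : ℤ) (e : (F →+* ℂ) → ℤ),
    (∀ (φ : N →+* ℂ) (c : N ≃ₐ[F] N), IsConj φ c →
      f c = m + 2 * e (φ.comp (algebraMap F N))) ∧
    Val B F N f (b1 B F ^ m * ∏ κ : F →+* ℂ, if IsReal κ then G κ ^ e κ else 1)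

/-- `N / F` is Galois and the subgroup `Gal(N/E)` is the kernel of the sign character `s` -/
def QuadE (F E N : Type) [Field F] [Field E] [Field N] [Algebra F E] [Algebra E N] [Algebra F N]
    [IsScalarTower F E N] (s : (N ≃ₐ[F] N) →* ℂˣ) (t : N ≃ₐ[F] N) : Prop :=
  Sg s ∧ s t = -1 ∧ ∀ g : N ≃ₐ[F] N, s g = 1 ↔ ∃ h : N ≃ₐ[E] N, h.restrictScalars F = g

open Classical in
/-- the quadratic step -/
def QuadOK {M : Type} [CommGroup M] (B : ArtinInvariant M) (F E N : Type) [Field F] [NumberField F]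
    [Field E] [NumberField E] [Field N] [NumberField N] [Algebra F E] [Algebra E N] [Algebra F N]
    (G : (F →+* ℂ) → M) (G' : (E →+* ℂ) → M) (s : (N ≃ₐ[F] N) →* ℂˣ) : Prop :=
  (∀ l : E →+* ℂ, IsReal l → G' l = G (l.comp (algebraMap F E))) ∧
    b1 B E = b1 B F ^ 2 * ∏ κ : F →+* ℂ, if Neg s κ then (G κ)⁻¹ else 1

/-! ## The pieces -/

/-- SG1. A common extension (compare `Pool.Agent.K4H74.ST.exists_ext`: in an algebraic closure of
`N₁` adjoin the images of a basis of `N₂` and a square root of `-1`, take the normal closure). -/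
def P_SG1 : Prop :=
  ∀ (F N₁ N₂ : Type) [Field F] [NumberField F] [Field N₁] [NumberField N₁] [Field N₂]
    [NumberField N₂] [Algebra F N₁] [Algebra F N₂] [IsGalois F N₁] [IsGalois F N₂],
    ∃ (N : Type) (_ : Field N) (_ : NumberField N) (_ : Algebra F N) (_ : Algebra N₁ N)
      (_ : Algebra N₂ N) (_ : IsScalarTower F N₁ N) (_ : IsScalarTower F N₂ N) (_ : IsGalois F N),
      ∃ j : N, j * j = -1

/-- SG2. The value of a sign character depends only on the signs. Proof: take `N` of SG1, inflate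
`s₁`, `s₂` to `N` (`val_lin_res`); `β = s₁ s₂` is trivial on `CC F N` (use `isConj_res`,
`conj_same`), `odd_i` gives `s₀`; now `even_JJ`, `JJ_le`, `val_eq_of_sub`. -/
def P_SG2 : Prop :=
  ∀ (M : Type) [CommGroup M] (A : ArtinInvariant M), TrivComplex A →
    ∀ (F N₁ N₂ : Type) [Field F] [NumberField F] [Field N₁] [NumberField N₁] [Field N₂]
      [NumberField N₂] [Algebra F N₁] [Algebra F N₂] [IsGalois F N₁] [IsGalois F N₂]
      (s₁ : (N₁ ≃ₐ[F] N₁) →* ℂˣ) (s₂ : (N₂ ≃ₐ[F] N₂) →* ℂˣ), Sg s₁ → Sg s₂ →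
      (∀ κ : F →+* ℂ, Neg s₁ κ ↔ Neg s₂ κ) → A.val F N₁ (lc s₁) = A.val F N₂ (lc s₂)

open Classical in
/-- SG3. Values of sign characters. Proof: for real `κ` choose `α ∈ F` negative exactly at `κ`
(`exists_sign F {κ}`), an extension with a square root `w` of `α` and of `-1` (`exists_ext`), and
put `G κ = b1 / A(sgnHom w)`; by SG2 this is the value for all sign characters with `Neg = {κ}`.
Claim for `s` by induction on the number of `κ` with `Neg s κ`: take such a `κ`, an extension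
`N' ⊇ N` with `w² = α`, `s₂ = sgnHom w` on `N'`, `s₁` the inflation of `s`, `s₃ = s₁ s₂`, so that
`Neg s₃ = Neg s \ {κ}`. No `c ∈ CC F N'` has `s₂ c = s₃ c = -1`, so `s₂ = s₃ = 1` on
`CC ∩ ker (s₂ s₃)` and by `even_JJ` on the group `ker (s₂ s₃)`, `ind_JJ`, `ind_two'`:
`lc s₂ + lc s₃ - lc 1 - lc (s₂ * s₃) ∈ JJ (CC F N')`, whence `A(s₂) A(s₃) = A(1) A(s₁)`. The last
claim: `s` totally odd (`odd_i`), then `Neg s κ ↔ IsReal κ` and `A(1) A(s) = 1` (`odd_JJ`). -/
def P_SG3 : Prop :=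
  ∀ (M : Type) [CommGroup M] (A : ArtinInvariant M), TrivComplex A →
    ∀ (F : Type) [Field F] [NumberField F], ∃ G : (F →+* ℂ) → M, Good A F G ∧
      (∏ κ : F →+* ℂ, if IsReal κ then G κ else 1) = b1 A F ^ 2

/-- SG4. Proof: `exists_twist ψ k hψ Set.univ` gives `N`, `η`, `ε` with `η = -1` on `CC K N` and
`ψη - ψ - ηε + ε ∈ JJ (CC K N)`. A function in `JJ X`, `X = CC K N`, vanishes on `X` (`CC_conj`),
hence `ε c = ψ c` on `CC`. By `odd_JJ`: `A(ψη) = A(ψ)⁻¹`, `A(ηε) = A(ε)⁻¹`, so `A(ψ)² = A(ε)²`. -/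
def P_SG4 : Prop :=
  ∀ (M : Type) [CommGroup M] (A : ArtinInvariant M), TrivComplex A →
    LinOK (sqInv A)

/-- SG5. The cyclic subgroup of the dihedral group of order `8`. `η = etaHom hs ht hm`,
`η g = e1 g * e2 g`. Put `ψ g = e1 s t m g` if `s g = 1` and `ψ g = i * e1 s t m g` if `s g = -1`,
for `s g * η g = 1`. It is multiplicative (`e1_mul`: for `s b = -1` use `e2 a = η a * e1 a`).
Induction: `ind_two'`-type formula `ind_two` for `(s * η).ker` and `u`; `e1_conj` if `s g = 1`; if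
`s g = -1`, `η g = -1` then `e1 (u⁻¹ g u) = s u * η u * e1 g = - e1 g`. -/
def P_SG5 : Prop :=
  ∀ (G : Type) [Group G] [Finite G] (s : G →* ℂˣ) (hs : Sg s) (t : G) (ht : s t = -1) (m : G → ℂˣ)
    (hm : ∀ a b, s a = 1 → s b = 1 → m (a * b) = m a * m b)
    (_hm1 : ∀ a, s a = 1 → m a = 1 ∨ m a = -1) (u : G) (_hu : (s * etaHom hs ht hm) u = -1),
    ∃ ψ : (s * etaHom hs ht hm).ker →* ℂˣ, (∀ g, ψ g ^ (2 ^ 2) = 1) ∧
      (∀ g : (s * etaHom hs ht hm).ker, s g = 1 → ψ g = m g) ∧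
      (∀ g : (s * etaHom hs ht hm).ker, s g = -1 → ψ g ^ 2 = -1) ∧
      ind (s * etaHom hs ht hm).ker (fun h => ((ψ h : ℂˣ) : ℂ))
        = ind s.ker (fun h => ((m h : ℂˣ) : ℂ))

/-- SG6. Induction from `E` in terms of `ker s` (compare the proof of `ind_fixed`). -/
def P_SG6 : Prop :=
  ∀ (F E N : Type) [Field F] [NumberField F] [Field E] [NumberField E] [Field N] [NumberField N]
    [Algebra F E] [Algebra E N] [Algebra F N] [IsScalarTower F E N] [IsGalois F N]
    (s : (N ≃ₐ[F] N) →* ℂˣ) (t : N ≃ₐ[F] N), QuadE F E N s t →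
    ∃ ι : s.ker ≃* (N ≃ₐ[E] N), (∀ h, (ι h).restrictScalars F = (h : N ≃ₐ[F] N)) ∧
      ∀ χ : (N ≃ₐ[E] N) → ℂ, indChar F E N χ = ind s.ker (fun h => χ (ι h))

/-- SG9. The induction step for `Form`. If `χ` has `(m, e)`, then the induced function has
`m' = 2m`, `e' κ = (if Neg s κ then -m else 0) + ∑ l : E →+* ℂ, if IsReal l ∧ l|F = κ then e l else 0`.
Value: `ArtinInvariant.val_ind` (for virtual characters; `indHom`/`ind_sub` with SG6), then
`b1 B E ^ m * ∏_{l real} G' l ^ e l` is rewritten with `QuadOK` and `Finset.prod_comm`/fiberwise.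
Values at `c`, `IsConj φ c`, `κ = φ|F`: if `s c = -1` then `ind` is `0` and no real `l` lies over `κ`
(such an `l = φ'|E` would give `c' ∈ Gal(N/E)`, `IsConj φ' c'`, `conj_same`). If `s c = 1`: `ind` is
`χ(c) + χ(t⁻¹ c t)`, and the embeddings of `E` over `κ` are `φ|E` and `(φ ∘ t)|E`, both real and
different. -/
def P_SG9 : Prop :=
  ∀ (M : Type) [CommGroup M] (B : ArtinInvariant M)
    (F E N : Type) [Field F] [NumberField F] [Field E] [NumberField E] [Field N] [NumberField N]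
    [Algebra F E] [Algebra E N] [Algebra F N] [IsScalarTower F E N] [IsGalois F N] [IsGalois E N]
    (s : (N ≃ₐ[F] N) →* ℂˣ) (t : N ≃ₐ[F] N), QuadE F E N s t →
    ∀ (G : (F →+* ℂ) → M) (G' : (E →+* ℂ) → M), QuadOK B F E N G G' s →
    ∀ χ : (N ≃ₐ[E] N) → ℂ, Form B E N G' χ → Form B F N G (indChar F E N χ)

/-- SG10. A proper subgroup of a `2`-group lies in a subgroup of index two. -/
def P_SG10 : Prop :=
  ∀ (G P : Type) [Group G] [Group P] [Finite P] (ρ : G →* P), (∀ u, ∃ k : ℕ, ρ u ^ (2 ^ k) = 1) →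
    ∀ V : Subgroup G, ρ.ker ≤ V → V ≠ ⊤ →
    ∃ s : G →* ℂˣ, Sg s ∧ (∃ t, s t = -1) ∧ V ≤ s.ker

/-- SG11. Characters with values in `2`-groups. Proof: restrict to `ρ.range` (a `2`-group) and use
Brauer (`virt_mem_mon` for `ρ.range`) to write `χ ∘ ρ` as a combination of `ind V ψ`,
`ker ρ ≤ V ≤ Gal(N/F)`, `ψ` linear of `2`-power order (`Form` is additive). Induction on the index of
`V` (for all `F`, `N`, `ρ`): if `V = ⊤` use `LinOK` and `Good` (`m = 1`, `e = -1` on the negative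
embeddings; `Val` and `A.val_infl`). Otherwise SG10 gives `s`; `E = fixedField s.ker`, the
restriction of `ρ` to `Gal(N/E)`, the induction hypothesis over `E`, SG9 and `ind_ind`. -/
def P_SG11 : Prop :=
  ∀ (M : Type) [CommGroup M] (B : ArtinInvariant M), LinOK B →
    ∀ Gf : (∀ (F : Type) [Field F] [NumberField F], (F →+* ℂ) → M),
    (∀ (F : Type) [Field F] [NumberField F], Good B F (Gf F)) →
    (∀ (F E N : Type) [Field F] [NumberField F] [Field E] [NumberField E] [Field N] [NumberField N]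
      [Algebra F E] [Algebra E N] [Algebra F N] [IsScalarTower F E N] [IsGalois F N]
      (s : (N ≃ₐ[F] N) →* ℂˣ) (t : N ≃ₐ[F] N), QuadE F E N s t →
      QuadOK B F E N (Gf F) (Gf E) s) →
    ∀ (F N P : Type) [Field F] [NumberField F] [Field N] [NumberField N] [Algebra F N]
      [IsGalois F N] [Group P] [Finite P] (ρ : (N ≃ₐ[F] N) →* P),
      (∀ u, ∃ k : ℕ, ρ u ^ (2 ^ k) = 1) → ∀ χ : P → ℂ, IsChar χ →
      Form B F N (Gf F) (fun u => χ (ρ u))

/-- SG12. `Pool.Agent.K4H85.ST.exact_group` for virtual characters, with the values on `X`. Proof: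
copy the proof of `exact_group`; `χ` is only used through `hv : Virt χ`; in the case `p = 2` the
function `h1 : f - f ∘ τ ∈ JJ {x : U | x ∈ X}` vanishes on `X` (`X` is closed under conjugation),
in the other case `ρ = π`. -/
def P_SG12 : Prop :=
  ∀ (Γ G : Type) [Group Γ] [Finite Γ] [Group G] [Finite G] (X : Set Γ),
    (∀ c ∈ X, c * c = 1 ∧ c ≠ 1) → (∀ c ∈ X, ∀ g : Γ, g⁻¹ * c * g ∈ X) → ∀ (π : Γ →* G),
    (∀ c ∈ X, ∀ h : Γ, h * c = c * h → π h * π h = 1) → ∀ (θ : G → ℂ), Virt θ →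
    (fun h => θ (π h)) ∈ JJ X ⊔ AddSubgroup.closure {f | ∃ (U : Subgroup Γ) (ρ : U →* G),
      (∀ u, ∃ k : ℕ, ρ u ^ (2 ^ k) = 1) ∧ (∀ u : U, (u : Γ) ∈ X → θ (ρ u) = θ (π u)) ∧
        f = ind U (fun u => θ (ρ u))}

/-- SG7. The relation between the three quadratic subfields of a dihedral extension. -/
def P_SG7 : Prop :=
  ∀ (M : Type) [CommGroup M] (B : ArtinInvariant M), TrivComplex B → LinOK B →
    ∀ (F N : Type) [Field F] [NumberField F] [Field N] [NumberField N] [Algebra F N] [IsGalois F N]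
      (j : N), j * j = -1 → ∀ (s : (N ≃ₐ[F] N) →* ℂˣ) (hs : Sg s) (t : N ≃ₐ[F] N) (ht : s t = -1)
      (m : (N ≃ₐ[F] N) → ℂˣ) (hm : ∀ a b, s a = 1 → s b = 1 → m (a * b) = m a * m b)
      (_hm1 : ∀ a, s a = 1 → m a = 1 ∨ m a = -1)
      (_hX : ∀ x ∈ CC F N, s x = 1 → ¬ (m x = -1 ∧ m (t⁻¹ * x * t) = -1))
      (u : N ≃ₐ[F] N) (_hu : (s * etaHom hs ht hm) u = -1),
      ind s.ker (fun h => ((m h : ℂˣ) : ℂ)) - (lc 1 + lc (s * etaHom hs ht hm))
        ∈ TT B (K := F) (L := N) ⊥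

open Classical in
/-- SG8A. The trivial character of a quadratic extension: `b1 B E` is the value of
`indChar F E N 1 = ind s.ker 1 = lc 1 + lc s` (SG6, `ind_two'`); use `Good`. -/
def P_SG8A : Prop :=
  ∀ (M : Type) [CommGroup M] (B : ArtinInvariant M)
    (F E N : Type) [Field F] [NumberField F] [Field E] [NumberField E] [Field N] [NumberField N]
    [Algebra F E] [Algebra E N] [Algebra F N] [IsScalarTower F E N] [IsGalois F N]
    (s : (N ≃ₐ[F] N) →* ℂˣ) (t : N ≃ₐ[F] N), QuadE F E N s t →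
    ∀ (G : (F →+* ℂ) → M), Good B F G →
      b1 B E = b1 B F ^ 2 * ∏ κ : F →+* ℂ, if Neg s κ then (G κ)⁻¹ else 1

/-- SG8B. The quadratic step for a large extension (from SG6, SG7, SG8A). Put `m = sgn w`
(`sgn_mul`, `pm_of_sq`), `η = etaHom hs ht hm`. For `x ∈ CC F N`, `IsConj φ x`, `s x = 1`:
`m x = -1 ↔ φ|E = l` (`sqrt_pos`, `sqrt_neg`), `m (t⁻¹ x t) = -1 ↔ (φ ∘ t)|E = l` and
`φ|E ≠ (φ ∘ t)|E`. If `s x = -1` then `η x = 1` by `e1_mul x x` (`x * x = 1`). So `Neg (s * η) κ` iff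
`Neg s κ` or `κ = l|F` (exclusive). `u` = the conjugation of an extension of `l` to `N`. The value of
`ind s.ker m` is `B.val E N` of the sign character of `w`, with `Neg` = `{l}`, i.e.
`b1 B E * (G' l)⁻¹`; SG7 gives `b1 B E * (G' l)⁻¹ = b1 B F * (b1 B F * ∏ ... * (G (l|F))⁻¹)`; compare
with SG8A. -/
def P_SG8B : Prop :=
  ∀ (M : Type) [CommGroup M] (B : ArtinInvariant M), TrivComplex B → LinOK B →
    ∀ (F E N : Type) [Field F] [NumberField F] [Field E] [NumberField E] [Field N] [NumberField N]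
    [Algebra F E] [Algebra E N] [Algebra F N] [IsScalarTower F E N] [IsGalois F N]
    (s : (N ≃ₐ[F] N) →* ℂˣ) (t : N ≃ₐ[F] N), QuadE F E N s t →
    ∀ (G : (F →+* ℂ) → M) (G' : (E →+* ℂ) → M), Good B F G → Good B E G' →
    ∀ (j w : N) (β : E) (l : E →+* ℂ), j * j = -1 → w * w = algebraMap E N β → IsReal l →
      (∀ φ : E →+* ℂ, IsReal φ → (φ = l → (φ β).re < 0) ∧ (φ ≠ l → 0 < (φ β).re)) →
      G' l = G (l.comp (algebraMap F E))

/-- SG8. The quadratic step. Proof from SG8A, SG8B: for real `l` take `β` from `exists_sign E {l}`,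
and `N₁` from `exists_ext F N {algebraMap E N β, -1}`, with the composite algebra structure
`E → N → N₁`; `s₁ = s.comp (AlgEquiv.restrictNormalHom N)`, `t₁` a lift of `t`; `QuadE F E N₁ s₁ t₁`. -/
def P_SG8 : Prop :=
  ∀ (M : Type) [CommGroup M] (B : ArtinInvariant M), TrivComplex B → LinOK B →
    ∀ (F E N : Type) [Field F] [NumberField F] [Field E] [NumberField E] [Field N] [NumberField N]
    [Algebra F E] [Algebra E N] [Algebra F N] [IsScalarTower F E N] [IsGalois F N]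
    (s : (N ≃ₐ[F] N) →* ℂˣ) (t : N ≃ₐ[F] N), QuadE F E N s t →
    ∀ (G : (F →+* ℂ) → M) (G' : (E →+* ℂ) → M), Good B F G → Good B E G' →
      QuadOK B F E N G G' s

end Pool.Agent.W2helper23.SG
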