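import Mathlib
import Pool.Agent.TH119.MX.Gal

/-!
# Numbers which are fixed by all automorphisms of `ℂ`
-/

set_option autoImplicit false

namespace Pool.Agent.W2helper23.SG

/-- Numbers which are fixed by all automorphisms of `ℂ` are rational. -/
theorem rat_of_fixed {z : ℂ} (h : ∀ σ : ℂ ≃+* ℂ, σ z = z) : ∃ q : ℚ, z = q := by
  by_contra hcon
  have hz : z ∉ (⊥ : Subfield ℂ) := by
    intro hz
    apply hcon
    have h1 : (⊥ : Subfield ℂ) ≤ (algebraMap ℚ ℂ).fieldRange := bot_le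
    obtain ⟨q, hq⟩ := h1 hz
    exact ⟨q, by rw [← hq]; rfl⟩
  by_cases ha : IsAlgebraic (⊥ : Subfield ℂ) z
  · obtain ⟨σ, -, hσ⟩ := Pool.Agent.TH119.MX.move_alg ha hz
    exact hσ (h σ)
  · obtain ⟨σ, -, hσ⟩ := Pool.Agent.TH119.MX.move_transc ha
    exact hσ (h σ)

end Pool.Agent.W2helper23.SG
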