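import Mathlib
import Pool.Agent.W2helper23.DEL.Pr
import Pool.Agent.W2helper23.SG.Rat

/-!
# Applications of the sign theorem to the Artin twists of a motive
-/

set_option autoImplicit false
set_option linter.unusedSectionVars false

namespace Pool.Agent.W2helper23.SG

open NumberField NumberField.ComplexEmbedding Pool.Agent.R389 Pool.Agent.K4H74.ST
  Pool.Agent.K4H34.ST Pool.Agent.K4H74 Pool.Agent.K4H74.SK Pool.Agent.K4H34.AL
  Pool.Agent.W2helper23.DEL Pool.Agent.K4H77.SL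

/-- the sign theorem -/
def SignThm : Prop :=
  ∀ (M : Type) [CommGroup M] (A : ArtinInvariant M), TrivComplex A →
    ∀ (K L : Type) [Field K] [NumberField K] [Field L] [NumberField L] [Algebra K L]
      [IsGalois K L] (χ χ' : (L ≃ₐ[K] L) → ℂ), IsChar χ → IsChar χ' →
      (∀ c ∈ CC K L, χ c = χ' c) → A.val K L χ ^ 2 = A.val K L χ' ^ 2

/-- a complex conjugation -/
noncomputable def cc (N : Type) [Field N] [NumberField N] [IsGalois ℚ N] : N ≃ₐ[ℚ] N :=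
  Classical.choose (exists_res (starRingEnd ℂ) (Classical.choice (inferInstance :
    Nonempty (N →+* ℂ))))

lemma cc_spec (N : Type) [Field N] [NumberField N] [IsGalois ℚ N] :
    IsRes (starRingEnd ℂ) (Classical.choice (inferInstance : Nonempty (N →+* ℂ))) (cc N) :=
  Classical.choose_spec (exists_res (starRingEnd ℂ) (Classical.choice (inferInstance :
    Nonempty (N →+* ℂ))))

lemma cc_mem (N : Type) [Field N] [NumberField N] [IsGalois ℚ N] : cc N ∈ CC ℚ N :=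
  ⟨_, by ext y; exact (cc_spec N y).symm⟩

/-- the value at the complex conjugations as a rule -/
noncomputable def conjRule : QRule (Multiplicative ℂ) where
  v N _ _ _ χ := Multiplicative.ofAdd (χ (cc N))
  add N _ _ _ χ χ' _ _ := rfl
  infl N N' _ _ _ _ _ _ _ χ h := by
    have h1 : χ (AlgEquiv.restrictNormalHom N (cc N')) = χ (cc N) :=
      conj_eq h (CC_res (cc_mem N')) (cc_mem N)
    exact congrArg Multiplicative.ofAdd h1

/-- every character of `Gal(L/K)` comes from one over `ℚ` with the same value at the complex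
conjugations as the induced character -/
lemma over_q {x : Pair} (hx : IsChr x.2) : ∃ (N : Type) (_ : Field N) (_ : NumberField N)
    (_ : IsGalois ℚ N) (_ : x.1.L →+* N) (θ : (N ≃ₐ[ℚ] N) → ℂ) (a b : ℕ), IsChar θ ∧
    (∀ (M : Type) [CommGroup M] (A : ArtinInvariant M), A.val ℚ N θ = pval A x) ∧
    (∀ c ∈ CC ℚ N, θ c = a - b) ∧
    (∀ (N' : Type) [Field N'] [NumberField N'] [IsGalois ℚ N'], (x.1.L →+* N') →
      ∀ c ∈ CC ℚ N', induce N' (K := x.1.K) (L := x.1.L) x.2 c = a - b) := by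
  have hx' : IsChar x.2 := isChr_iff.mp hx
  obtain ⟨N, i1, i2, i3, i4⟩ := Pool.Agent.K4H34.ST.exists_gal x.1.L
  obtain ⟨θ, hθ, hA⟩ := Pool.Agent.W2helper1.SI.exists_over x.1 hx' N (algebraMap x.1.L N)
  obtain ⟨a, b, -, hab⟩ := exists_mult hθ (star_sq (cc_spec N))
  refine ⟨N, i1, i2, i4, algebraMap x.1.L N, θ, a, b, hθ, fun M _ A => hA M A,
    fun c hc => by rw [conj_eq hθ hc (cc_mem N), hab], fun N' _ _ _ j c hc => ?_⟩
  have h1 : (ofQ conjRule).val ℚ N θ = (ofQ conjRule).val x.1.K x.1.L x.2 := hA _ _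
  rw [ofQ_val conjRule hθ N (RingHom.id N), ofQ_val conjRule hx' N' j, induce_self hθ] at h1
  have h2 : θ (cc N) = induce N' (K := x.1.K) (L := x.1.L) x.2 (cc N') :=
    congrArg Multiplicative.toAdd h1
  rw [conj_eq (induce_isChar j hx') hc (cc_mem N'), ← h2, hab]

/-- the trivial character over `ℚ` at every level -/
lemma val_triv {Mg : Type} [CommGroup Mg] (A : ArtinInvariant Mg) (N : Type) [Field N]
    [NumberField N] [IsGalois ℚ N] : A.val ℚ N (lc 1) = A.val ℚ ℚ (fun _ => 1) := by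
  have h := A.val_infl ℚ ℚ N (lc 1) (IsChar.lc 1)
  have h3 : lc (1 : (ℚ ≃ₐ[ℚ] ℚ) →* ℂˣ) = fun _ => 1 := by
    funext g
    simp [lc]
  rw [h3] at h
  rw [← h]
  congr 1

/-- the square of the value at any character, for an invariant which is trivial over the totally
complex fields -/
theorem sq_core (hS : SignThm) {Mg : Type} [CommGroup Mg] {A : ArtinInvariant Mg}
    (hC : TrivComplex A) {N : Type} [Field N] [NumberField N] [IsGalois ℚ N]
    {θ : (N ≃ₐ[ℚ] N) → ℂ} (hθ : IsChar θ) {a b : ℕ} (hc : ∀ c ∈ CC ℚ N, θ c = a - b) :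
    A.val ℚ N θ ^ 2 = A.val ℚ ℚ (fun _ => 1) ^ (2 * ((a : ℤ) - b)) := by
  have hu : IsChar (lc (1 : (N ≃ₐ[ℚ] N) →* ℂˣ)) := IsChar.lc 1
  have hb := Pool.Agent.W2helper1.SI.IsChar.nsmul hu b
  have ha := Pool.Agent.W2helper1.SI.IsChar.nsmul hu a
  have h1 := hS Mg A hC ℚ N (θ + b • lc 1) (a • lc 1) (hθ.add hb) ha (by
    intro c hcc
    rw [Pi.add_apply, Pi.smul_apply, Pi.smul_apply, hc c hcc]
    simp [lc])
  rw [A.val_add ℚ N _ _ hθ hb, Pool.Agent.W2helper1.SI.val_nsmul A hu,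
    Pool.Agent.W2helper1.SI.val_nsmul A hu, val_triv A N, mul_pow, ← pow_mul, ← pow_mul] at h1
  have h2 : (2 : ℤ) * ((a : ℤ) - b) = ((a * 2 : ℕ) : ℤ) - ((b * 2 : ℕ) : ℤ) := by
    push_cast
    ring
  rw [h2, zpow_sub, zpow_natCast, zpow_natCast, eq_mul_inv_iff_mul_eq]
  exact h1

/-- the group generated by the values on a family which contains the faithful linear characters
over totally complex fields -/
theorem sq_form (hS : SignThm) {Mg : Type} [CommGroup Mg] (A : ArtinInvariant Mg)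
    (T : Pair → Prop)
    (h2 : ∀ E : Ext, IsTotallyComplex E.K → ∀ ψ : G E →* ℂˣ, Function.Injective ψ →
      T ⟨E, lin ψ⟩) {E : Ext} {χ χ' : G E → ℂ} (hχ : IsChr χ) (hχ' : IsChr χ')
    (h0 : ∀ t : G E, IsCC t → χ t = χ' t) :
    ∃ (r : ℕ) (y : Fin r → Pair) (k : Fin r → ℤ), (∀ i, T (y i)) ∧
      pval A ⟨E, χ⟩ ^ 2 = pval A ⟨E, χ'⟩ ^ 2 * ∏ i, pval A (y i) ^ k i := by
  let P : Subgroup Mg := Subgroup.closure {y : Mg | ∃ x : Pair, T x ∧ y = pval A x}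
  let B : ArtinInvariant (Mg ⧸ P) := mapInv (QuotientGroup.mk' P) A
  have hB : ∀ x : Pair, T x → B.val x.1.K x.1.L x.2 = 1 := by
    intro x hx
    exact (QuotientGroup.eq_one_iff (N := P) _).mpr (Subgroup.subset_closure ⟨x, hx, rfl⟩)
  have i2 : TrivComplex B := fun K L _ _ _ _ _ _ hK ψ hψ => hB _ (h2 ⟨K, L⟩ hK ψ hψ)
  have h3 := hS _ B i2 E.K E.L χ χ' (isChr_iff.mp hχ) (isChr_iff.mp hχ') (by
    rintro c ⟨φ, hφ⟩
    exact h0 c ⟨φ, fun x => hφ.eq x⟩)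
  have h4 : ((pval A ⟨E, χ'⟩ ^ 2)⁻¹ * pval A ⟨E, χ⟩ ^ 2) ∈ P := by
    rw [← QuotientGroup.eq]
    exact h3.symm
  obtain ⟨r, y, k, hy, h5⟩ := closure_form A T h4
  exact ⟨r, y, k, hy, by rw [← h5, mul_inv_cancel_left]⟩

/-- the value at any character -/
theorem sq_form_q (hS : SignThm) {Mg : Type} [CommGroup Mg] (A : ArtinInvariant Mg)
    (T : Pair → Prop)
    (h2 : ∀ E : Ext, IsTotallyComplex E.K → ∀ ψ : G E →* ℂˣ, Function.Injective ψ →
      T ⟨E, lin ψ⟩) {x : Pair} (hx : IsChr x.2) :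
    ∃ (t : ℤ) (r : ℕ) (y : Fin r → Pair) (k : Fin r → ℤ),
      (∀ (N' : Type) [Field N'] [NumberField N'] [IsGalois ℚ N'], (x.1.L →+* N') →
        ∀ c ∈ CC ℚ N', induce N' (K := x.1.K) (L := x.1.L) x.2 c = t) ∧ (∀ i, T (y i)) ∧
      pval A x ^ 2 = pval A ⟨⟨ℚ, ℚ⟩, fun _ => 1⟩ ^ (2 * t) * ∏ i, pval A (y i) ^ k i := by
  obtain ⟨N, i1, i2, i3, j, θ, a, b, hθ, hA, hc, hc'⟩ := over_q hx
  let P : Subgroup Mg := Subgroup.closure {y : Mg | ∃ x : Pair, T x ∧ y = pval A x}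
  let B : ArtinInvariant (Mg ⧸ P) := mapInv (QuotientGroup.mk' P) A
  have hB : ∀ x : Pair, T x → B.val x.1.K x.1.L x.2 = 1 := by
    intro x hx
    exact (QuotientGroup.eq_one_iff (N := P) _).mpr (Subgroup.subset_closure ⟨x, hx, rfl⟩)
  have i4 : TrivComplex B := fun K L _ _ _ _ _ _ hK ψ hψ => hB _ (h2 ⟨K, L⟩ hK ψ hψ)
  have h3 := sq_core hS i4 hθ hc
  rw [hA _ B] at h3
  have h4 : ((pval A ⟨⟨ℚ, ℚ⟩, fun _ => 1⟩ ^ (2 * ((a : ℤ) - b)))⁻¹ * pval A x ^ 2) ∈ P := by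
    rw [← QuotientGroup.eq]
    exact h3.symm
  obtain ⟨r, y, k, hy, h5⟩ := closure_form A T h4
  refine ⟨(a : ℤ) - b, r, y, k, fun N' _ _ _ j' c hcc => ?_, hy, by rw [← h5, mul_inv_cancel_left]⟩
  rw [hc' N' j' c hcc]
  push_cast
  rfl

variable {F : Type} [Field F] {M : Mot F}

/-- Deligne's conjecture up to sign -/
theorem defect_sign (hS : SignThm) {σ : ℂ ≃+* ℂ} {τ : F →+* ℂ}
    (h1 : Defect M σ τ ⟨⟨ℚ, ℚ⟩, fun _ => 1⟩ 1)
    (h2 : ∀ (E : Ext) (ψ : G E →* ℂˣ), IsTotallyComplex E.K → Function.Injective ψ →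
      Defect M σ τ ⟨E, lin ψ⟩ 1) {x : Pair} (hx : IsChr x.2) {u : ℂˣ} (hu : Defect M σ τ x u) :
    u = 1 ∨ u = -1 := by
  have e1 : pval (defInv M σ τ) ⟨⟨ℚ, ℚ⟩, fun _ => 1⟩ = 1 :=
    (defect_eq (Pool.Agent.W2helper23.DEL.isChr_one ⟨ℚ, ℚ⟩) h1).symm
  have i2 : TrivComplex (defInv M σ τ) := fun K L _ _ _ _ _ _ hK ψ hψ =>
    (defect_eq (x := ⟨⟨K, L⟩, lin (E := ⟨K, L⟩) ψ⟩) (isChr_lin (E := ⟨K, L⟩) ψ)
      (h2 ⟨K, L⟩ ψ hK hψ)).symm
  obtain ⟨N, i1, i2', i3, j, θ, a, b, hθ, hA, hc, hc'⟩ := over_q hx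
  have h3 := sq_core hS i2 hθ hc
  rw [hA _ (defInv M σ τ)] at h3
  have e2 : (defInv M σ τ).val ℚ ℚ (fun _ => 1) = 1 := e1
  rw [e2, one_zpow, ← defect_eq hx hu] at h3
  have h4 : (u : ℂ) ^ 2 = 1 := by
    rw [← Units.val_pow_eq_pow_val, h3, Units.val_one]
  rw [pow_two] at h4
  rcases mul_self_eq_one_iff.mp h4 with h5 | h5
  · exact Or.inl (Units.ext h5)
  · exact Or.inr (Units.ext (by rw [h5]; simp))

/-- the determinants for rational-valued characters -/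
lemma det_sq {N : Type} [Field N] [NumberField N] [IsGalois ℚ N] {θ : (N ≃ₐ[ℚ] N) → ℂ}
    (hq : ∀ g, ∃ q : ℚ, θ g = q) {g : N ≃ₐ[ℚ] N} {δ : ℂ} (h : IsDet θ g δ) :
    δ ^ 2 = 1 := by
  have h1 : ∀ σ : ℂ ≃+* ℂ, σ δ = δ := by
    intro σ
    have e : (fun x => (σ : ℂ →+* ℂ) (θ x)) = θ := by
      funext x
      obtain ⟨q, hq⟩ := hq x
      rw [hq]
      exact map_ratCast _ q
    have h' : IsDet (fun x => (σ : ℂ →+* ℂ) (θ x)) g δ := by
      rw [e]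
      exact h
    exact (h.sigma (σ : ℂ →+* ℂ) h').symm
  obtain ⟨q, rfl⟩ := rat_of_fixed h1
  obtain ⟨n, ρ, h2, h3⟩ := h
  have h4 : ((q : ℂ)) ^ (orderOf g) = 1 := by
    rw [h3, ← Matrix.det_pow, ← map_pow, pow_orderOf_eq_one, map_one, Matrix.det_one]
  have h5 : (q : ℚ) ^ (orderOf g) = 1 := by exact_mod_cast h4
  have hpos : orderOf g ≠ 0 := (orderOf_pos g).ne'
  have h6 : |q| = 1 := by
    have : |q| ^ (orderOf g) = 1 := by rw [← abs_pow, h5, abs_one]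
    exact (pow_eq_one_iff_of_nonneg (abs_nonneg q) hpos).mp this
  have h7 : q ^ 2 = 1 := by rw [← sq_abs, h6, one_pow]
  exact_mod_cast congrArg (fun r : ℚ => (r : ℂ)) h7

/-- induction of rational-valued functions -/
lemma induce_rat (N : Type) [Field N] [NumberField N] {K L : Type} [Field K] [Field L]
    [Algebra K L] {χ : (L ≃ₐ[K] L) → ℂ} (hq : ∀ g, ∃ q : ℚ, χ g = q) (s : N ≃ₐ[ℚ] N) :
    ∃ q : ℚ, induce N χ s = q := by
  have hadd : ∀ x y : ℂ, (∃ q : ℚ, x = q) → (∃ q : ℚ, y = q) → ∃ q : ℚ, x + y = q := by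
    rintro _ _ ⟨a, rfl⟩ ⟨b, rfl⟩
    exact ⟨a + b, by push_cast; rfl⟩
  have h0 : ∃ q : ℚ, (0 : ℂ) = q := ⟨0, by simp⟩
  have h1 : ∃ q : ℚ, (∑ᶠ (J : L →+* N) (h : L ≃ₐ[K] L) (_ : ∀ x, s (J x) = J (h x)), χ h) = q := by
    refine finsum_induction (fun x : ℂ => ∃ q : ℚ, x = q) h0 hadd fun J => ?_
    refine finsum_induction (fun x : ℂ => ∃ q : ℚ, x = q) h0 hadd fun h => ?_
    exact finsum_induction (fun x : ℂ => ∃ q : ℚ, x = q) h0 hadd fun _ => hq h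
  obtain ⟨q, hq⟩ := h1
  refine ⟨(Nat.card (L ≃ₐ[K] L) : ℚ)⁻¹ * q, ?_⟩
  rw [induce, hq]
  push_cast
  rfl

/-- rational-valued characters and rational coefficients: the square of the ratio is rational -/
theorem ratio_sq {M : Mot ℚ} (hS : SignThm) 
    (h1 : ∀ (σ : ℂ ≃+* ℂ) (τ : ℚ →+* ℂ), Defect M σ τ ⟨⟨ℚ, ℚ⟩, fun _ => 1⟩ 1)
    (h2 : ∀ (σ : ℂ ≃+* ℂ) (τ : ℚ →+* ℂ) (E : Ext) (ψ : G E →* ℂˣ), IsTotallyComplex E.K →
      Function.Injective ψ → Defect M σ τ ⟨E, lin ψ⟩ 1) {x : Pair} (hx : IsChr x.2)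
    (hq : ∀ g, ∃ q : ℚ, x.2 g = q) {τ : ℚ →+* ℂ} {r : ℂ} (hr : Ratio M τ x r) :
    ∃ q : ℚ, r ^ 2 = q := by
  have hx' : IsChar x.2 := isChr_iff.mp hx
  refine rat_of_fixed fun σ => ?_
  obtain ⟨N, i1, i2, i3, i4⟩ := Pool.Agent.K4H34.ST.exists_gal x.1.L
  let j : x.1.L →+* N := algebraMap x.1.L N
  let θ := induce N (K := x.1.K) (L := x.1.L) x.2
  have hθ : IsChar θ := induce_isChar j hx'
  have hθq : ∀ g, ∃ q : ℚ, θ g = q := fun g => induce_rat N hq g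
  have hd := defect_val (M := M) σ τ hx N j
  have hu := defect_sign hS (h1 σ τ) (h2 σ τ) hx (defect_val (M := M) σ τ hx)
  generalize pval (defInv M σ τ) x = u at hd hu
  obtain ⟨φ, g, δ, r₀, r', e1, e2, e3, e4, e5⟩ := hd
  have e : (fun h => σ (θ h)) = θ := by
    funext h
    obtain ⟨q, hq⟩ := hθq h
    rw [hq]
    exact map_ratCast _ q
  have eτ : ((σ : ℂ →+* ℂ).comp τ) = τ := Subsingleton.elim _ _
  rw [eτ] at e4
  have e4' : IsRatio M τ θ r' := by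
    have := e4
    rwa [show (fun h => σ (induce N (K := x.1.K) (L := x.1.L) x.2 h)) = θ from e] at this
  have q1 : r₀ = r := e3.unique hθ (hr N j)
  have q2 : r' = r := e4'.unique hθ (hr N j)
  have q3 := det_sq hθq e2
  rw [q1, q2, map_mul, map_pow] at e5
  have q4 : (σ δ ^ M.d * σ r) ^ 2 = σ r ^ 2 := by
    rw [mul_pow, ← pow_mul, mul_comm M.d 2, pow_mul, ← map_pow, q3, map_one, one_pow, one_mul]
  rw [map_pow, ← q4, e5, mul_pow]
  rcases hu with rfl | rfl <;> simp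

/-- the logarithms of the Artin L-functions and the ratios and defects of all `M` at once -/
noncomputable def univInv (F : Type) [Field F] : ArtinInvariant
    (Multiplicative ({s : ℂ // 1 < s.re} → ℂ) ×
      (Mot F → ((F →+* ℂ) → ℂˣ) × ((ℂ ≃+* ℂ) × (F →+* ℂ) → ℂˣ))) :=
  prodInv logInv (piInv fun M : Mot F => bothInv M)

lemma hom_rel {Mg Mh : Type} [CommGroup Mg] [CommGroup Mh] (f : Mg →* Mh) (A : ArtinInvariant Mg)
    (B : ArtinInvariant Mh) (h : ∀ x, pval B x = f (pval A x)) {x x₀ : Pair} {t : ℤ} {r : ℕ}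
    {y : Fin r → Pair} {k : Fin r → ℤ}
    (h1 : pval A x ^ 2 = pval A x₀ ^ (2 * t) * ∏ i, pval A (y i) ^ k i) :
    pval B x ^ 2 = pval B x₀ ^ (2 * t) * ∏ i, pval B (y i) ^ k i := by
  have h2 := congrArg f h1
  rw [map_pow, map_mul, map_zpow, map_prod] at h2
  rw [h, h, h2]
  congr 1
  exact Finset.prod_congr rfl fun i _ => by rw [map_zpow, h]

lemma univ_rel {F : Type} [Field F] {x x₀ : Pair} {t : ℤ} {r : ℕ}
    {y : Fin r → Pair} {k : Fin r → ℤ}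
    (h : pval (univInv F) x ^ 2 = pval (univInv F) x₀ ^ (2 * t) *
      ∏ i, pval (univInv F) (y i) ^ k i) :
    (∀ s : ℂ, 1 < s.re → ∀ (l l₀ : ℂ) (m : Fin r → ℂ), HasSum (logTerm x.2 s) l →
      HasSum (logTerm x₀.2 s) l₀ → (∀ i, HasSum (logTerm (y i).2 s) (m i)) →
      2 * l = 2 * t * l₀ + ∑ i, k i * m i) ∧
    ∀ M : Mot F,
      (∀ τ, pval (ratInv M τ) x ^ 2 = pval (ratInv M τ) x₀ ^ (2 * t) *
        ∏ i, pval (ratInv M τ) (y i) ^ k i) ∧
      (∀ σ τ, pval (defInv M σ τ) x ^ 2 = pval (defInv M σ τ) x₀ ^ (2 * t) *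
        ∏ i, pval (defInv M σ τ) (y i) ^ k i) := by
  refine ⟨fun s hs l l₀ m hl hl₀ hm => ?_, fun M => ⟨fun τ => ?_, fun σ τ => ?_⟩⟩
  · have h1 := hom_rel (MonoidHom.fst _ _) (univInv F) logInv (fun _ => rfl) h
    have h2 := congrFun (congrArg Multiplicative.toAdd h1) ⟨s, hs⟩
    have h3 : (Multiplicative.toAdd (pval logInv x ^ 2) : {s : ℂ // 1 < s.re} → ℂ) ⟨s, hs⟩
        = 2 * l := by
      rw [toAdd_pow, Pi.smul_apply, pval_log hs hl, nsmul_eq_mul]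
      norm_num
    have h4 : (Multiplicative.toAdd (pval logInv x₀ ^ (2 * t) *
        ∏ i, pval logInv (y i) ^ k i) : {s : ℂ // 1 < s.re} → ℂ) ⟨s, hs⟩
        = 2 * t * l₀ + ∑ i, k i * m i := by
      rw [toAdd_mul, Pi.add_apply, toAdd_zpow, Pi.smul_apply, pval_log hs hl₀, toAdd_prod,
        Finset.sum_apply, zsmul_eq_mul]
      congr 1
      · push_cast
        ring
      · refine Finset.sum_congr rfl fun i _ => ?_
        rw [toAdd_zpow, Pi.smul_apply, pval_log hs (hm i), zsmul_eq_mul]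
    rw [← h3, ← h4]
    exact h2
  · exact hom_rel (((Pi.evalMonoidHom (fun _ : F →+* ℂ => ℂˣ) τ).comp (MonoidHom.fst _ _)).comp
      ((Pi.evalMonoidHom (fun _ : Mot F => ((F →+* ℂ) → ℂˣ) × ((ℂ ≃+* ℂ) × (F →+* ℂ) → ℂˣ)) M).comp
        (MonoidHom.snd _ _))) (univInv F) (ratInv M τ) (fun _ => rfl) h
  · exact hom_rel (((Pi.evalMonoidHom (fun _ : (ℂ ≃+* ℂ) × (F →+* ℂ) => ℂˣ) (σ, τ)).comp
      (MonoidHom.snd _ _)).comp
      ((Pi.evalMonoidHom (fun _ : Mot F => ((F →+* ℂ) → ℂˣ) × ((ℂ ≃+* ℂ) × (F →+* ℂ) → ℂˣ)) M).comp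
        (MonoidHom.snd _ _))) (univInv F) (defInv M σ τ) (fun _ => rfl) h

end Pool.Agent.W2helper23.SG
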