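import Mathlib
import Pool.Agent.W2helper23.SG.Stm

/-!
# The sign theorem: assembly
-/

set_option autoImplicit false
set_option linter.unusedSectionVars false

namespace Pool.Agent.W2helper23.SG

open NumberField NumberField.ComplexEmbedding Pool.Agent.R389 Pool.Agent.K4H74.ST
open Pool.Agent.H302R2 Pool.Agent.H302R3 Pool.Agent.H541R3.ART Pool.Agent.W446.AS

variable {M : Type} [CommGroup M]

lemma sqInv_complex {A : ArtinInvariant M} (hC : TrivComplex A) : TrivComplex (sqInv A) := by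
  intro K L _ _ _ _ _ _ hK ψ hψ
  change A.val K L _ ^ 2 = 1
  rw [hC K L hK ψ hψ, one_pow]

lemma b1_complex {A : ArtinInvariant M} (hC : TrivComplex A) {F : Type} [Field F] [NumberField F]
    (hF : IsTotallyComplex F) : b1 A F = 1 := by
  have h := val_complex hC hF (1 : (F ≃ₐ[F] F) →* ℂˣ)
  have h2 : lc (1 : (F ≃ₐ[F] F) →* ℂˣ) = fun _ => 1 := by
    funext g
    simp [lc]
  rw [h2] at h
  exact h

/-- a virtual character with values zero at the complex conjugations -/
lemma form_zero {B : ArtinInvariant M} (hC : TrivComplex B) {F N : Type} [Field F] [NumberField F]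
    [Field N] [NumberField N] [Algebra F N] [IsGalois F N] {G : (F →+* ℂ) → M}
    (hG : (∏ κ : F →+* ℂ, open Classical in if IsReal κ then G κ else 1) = b1 B F ^ 2)
    {f f' : (N ≃ₐ[F] N) → ℂ} (h : Form B F N G f) (h' : Form B F N G f')
    (h0 : ∀ c ∈ CC F N, f c = f' c) : f - f' ∈ TT B (K := F) (L := N) ⊥ := by
  classical
  obtain ⟨m, e, he, hv⟩ := h
  obtain ⟨m', e', he', hv'⟩ := h'
  have hval := hv.add B (hv'.neg B)
  rw [← sub_eq_add_neg] at hval
  refine ⟨1, Subgroup.mem_bot.mpr rfl, ?_⟩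
  have h1 : (b1 B F ^ m * ∏ κ : F →+* ℂ, if IsReal κ then G κ ^ e κ else 1) *
      (b1 B F ^ m' * ∏ κ : F →+* ℂ, if IsReal κ then G κ ^ e' κ else 1)⁻¹ = 1 := by
    by_cases hex : ∃ κ : F →+* ℂ, IsReal κ
    · have key : ∀ κ : F →+* ℂ, IsReal κ → m - m' = 2 * (e' κ - e κ) := by
        intro κ hκ
        let φ : N →+* ℂ := ComplexEmbedding.lift N κ
        have hφ : φ.comp (algebraMap F N) = κ := ComplexEmbedding.lift_comp_algebraMap N _
        obtain ⟨c, hc⟩ := exists_conj (K := F) (φ := φ) (by rw [hφ]; exact hκ)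
        have h2 := h0 c ⟨φ, hc⟩
        rw [he φ c hc, he' φ c hc, hφ] at h2
        have h3 : (m : ℤ) + 2 * e κ = m' + 2 * e' κ := by exact_mod_cast h2
        linarith
      obtain ⟨κ₀, hκ₀⟩ := hex
      set n : ℤ := e' κ₀ - e κ₀ with hn
      have hm : m = m' + 2 * n := by have := key κ₀ hκ₀; rw [hn]; linarith
      have he2 : ∀ κ : F →+* ℂ, IsReal κ → e' κ = n + e κ := by
        intro κ hκ
        have := key κ hκ
        have h4 := key κ₀ hκ₀
        rw [hn]
        linarith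
      have hp : (∏ κ : F →+* ℂ, if IsReal κ then G κ ^ e' κ else 1)
          = (∏ κ : F →+* ℂ, if IsReal κ then G κ else 1) ^ n
            * ∏ κ : F →+* ℂ, if IsReal κ then G κ ^ e κ else 1 := by
        rw [← Finset.prod_zpow, ← Finset.prod_mul_distrib]
        refine Finset.prod_congr rfl fun κ _ => ?_
        by_cases hκ : IsReal κ
        · rw [if_pos hκ, if_pos hκ, if_pos hκ, he2 κ hκ, zpow_add]
        · rw [if_neg hκ, if_neg hκ, if_neg hκ, one_zpow, one_mul]
      have hG' : (∏ κ : F →+* ℂ, if IsReal κ then G κ else 1) = b1 B F ^ 2 := by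
        rw [← hG]
      rw [hp, hG', hm, zpow_add, zpow_mul]
      have h5 : (b1 B F ^ (2 : ℤ)) = b1 B F ^ 2 := by
        rw [zpow_ofNat]
      rw [h5, mul_inv_eq_one]
      simp only [mul_assoc]
    · push Not at hex
      have hF : IsTotallyComplex F := by
        refine ⟨fun v => ?_⟩
        rw [← InfinitePlace.not_isReal_iff_isComplex]
        intro hv
        exact hex _ (InfinitePlace.isReal_iff.mp hv)
      have hb := b1_complex hC hF
      have h6 : ∀ e : (F →+* ℂ) → ℤ, (∏ κ : F →+* ℂ, if IsReal κ then G κ ^ e κ else 1) = 1 := by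
        intro e
        refine Finset.prod_eq_one fun κ _ => ?_
        rw [if_neg (hex κ)]
      rw [h6, h6, hb]
      simp
  rw [h1] at hval
  exact hval

/-- **The sign theorem** -/
theorem sign_of (h3 : P_SG3) (h4 : P_SG4) (h8 : P_SG8) (h11 : P_SG11) (h12 : P_SG12)
    {A : ArtinInvariant M} (hC : TrivComplex A) (K L : Type) [Field K] [NumberField K]
    [Field L] [NumberField L] [Algebra K L] [IsGalois K L] {χ χ' : (L ≃ₐ[K] L) → ℂ}
    (hχ : IsChar χ) (hχ' : IsChar χ') (h0 : ∀ c ∈ CC K L, χ c = χ' c) :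
    A.val K L χ ^ 2 = A.val K L χ' ^ 2 := by
  classical
  have hBC : TrivComplex (sqInv A) := sqInv_complex hC
  have hLin : LinOK (sqInv A) := h4 M A hC
  let Gf : (∀ (F : Type) [Field F] [NumberField F], (F →+* ℂ) → M) :=
    fun F _ _ => Classical.choose (h3 M (sqInv A) hBC F)
  have hGf : ∀ (F : Type) [Field F] [NumberField F], Good (sqInv A) F (Gf F) ∧
      (∏ κ : F →+* ℂ, if IsReal κ then Gf F κ else 1) = b1 (sqInv A) F ^ 2 :=
    fun F _ _ => Classical.choose_spec (h3 M (sqInv A) hBC F)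
  have hForm := h11 M (sqInv A) hLin Gf (fun F _ _ => (hGf F).1)
    (fun F E N _ _ _ _ _ _ _ _ _ _ _ s t hq => h8 M (sqInv A) hBC hLin F E N s t hq _ _
      (hGf F).1 (hGf E).1)
  obtain ⟨N, i1, i2, i3, i4, i5, i6, ⟨j, hj⟩, hN⟩ := exists_comm K L
  have hfinN : FiniteDimensional K N := Module.Finite.of_restrictScalars_finite ℚ K N
  have hfinL : FiniteDimensional K L := Module.Finite.of_restrictScalars_finite ℚ K L
  let π : (N ≃ₐ[K] N) →* (L ≃ₐ[K] L) := AlgEquiv.restrictNormalHom L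
  have hX : ∀ c ∈ CC K N, c * c = 1 ∧ c ≠ 1 := by
    rintro c ⟨φ, hφ⟩
    refine ⟨isConj_sq hφ, fun h => ?_⟩
    have h1 : c j = - j := by
      refine sqrt_neg hφ ?_ ?_
      · rw [hj, map_neg, map_one]; simp
      · rw [hj, map_neg, map_one]; simp
    rw [h] at h1
    have h3 : j = 0 := self_eq_neg.mp h1
    rw [h3, mul_zero] at hj
    exact one_ne_zero (neg_eq_zero.mp hj.symm)
  have hcom : ∀ c ∈ CC K N, ∀ h : N ≃ₐ[K] N, h * c = c * h → π h * π h = 1 := by
    intro c hc h hh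
    rcases hN c hc h hh with h1 | h1
    · change π h = 1 at h1
      rw [h1, one_mul]
    · change π h = π c at h1
      rw [h1, ← map_mul, (hX c hc).1, map_one]
  have hv : Virt (χ - χ') := by
    have h1 := hχ.virt
    have h2 := hχ'.virt
    exact sub_mem h1 h2
  have h1 := h12 (N ≃ₐ[K] N) (L ≃ₐ[K] L) (CC K N) hX (fun c hc g => CC_conj hc g) π hcom
    (χ - χ') hv
  have h2 : JJ (CC K N) ⊔ AddSubgroup.closure {f | ∃ (U : Subgroup (N ≃ₐ[K] N))
      (ρ : U →* (L ≃ₐ[K] L)), (∀ u, ∃ k : ℕ, ρ u ^ (2 ^ k) = 1) ∧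
        (∀ u : U, (u : N ≃ₐ[K] N) ∈ CC K N → (χ - χ') (ρ u) = (χ - χ') (π u)) ∧
        f = ind U (fun u => (χ - χ') (ρ u))} ≤ TT (sqInv A) (K := K) (L := N) ⊥ := by
    refine sup_le (JJ_le hBC) ?_
    rw [AddSubgroup.closure_le]
    rintro f ⟨U, ρ, hρ, hρX, rfl⟩
    let F := IntermediateField.fixedField U
    let e : U ≃* (N ≃ₐ[F] N) := IntermediateField.subgroupEquivAlgEquiv U
    let ρ' : (N ≃ₐ[F] N) →* (L ≃ₐ[K] L) := ρ.comp e.symm.toMonoidHom
    have hρ' : ∀ u, ∃ k : ℕ, ρ' u ^ (2 ^ k) = 1 := fun u => hρ (e.symm u)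
    have g1 := hForm F N (L ≃ₐ[K] L) ρ' hρ' χ hχ
    have g2 := hForm F N (L ≃ₐ[K] L) ρ' hρ' χ' hχ'
    have g3 : ∀ c ∈ CC F N, χ (ρ' c) = χ' (ρ' c) := by
      rintro c ⟨φ, hφ⟩
      have k1 : ((e.symm c : U) : N ≃ₐ[K] N) ∈ CC K N := by
        refine ⟨φ, ?_⟩
        ext x
        have h3 := hφ.eq x
        have h4 : ((e.symm c : U) : N ≃ₐ[K] N) x = c x := by
          have h5 : ∀ h : U, (e h) x = (h : N ≃ₐ[K] N) x := fun h => rfl
          rw [← h5, MulEquiv.apply_symm_apply]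
        change star (φ x) = φ (((e.symm c : U) : N ≃ₐ[K] N) x)
        rw [h4, h3]
      have k2 := hρX (e.symm c) k1
      have k3 := h0 _ (CC_res (L := L) k1)
      have k4 : (χ - χ') (π ((e.symm c : U) : N ≃ₐ[K] N)) = 0 := by
        rw [Pi.sub_apply, sub_eq_zero]
        exact k3
      rw [k4, Pi.sub_apply, sub_eq_zero] at k2
      exact k2
    have g4 := form_zero hBC (hGf F).2 g1 g2 g3
    have g5 : IsChar (fun g : N ≃ₐ[F] N => χ (ρ' g)) := hχ.comp ρ'
    have g6 : IsChar (fun g : N ≃ₐ[F] N => χ' (ρ' g)) := hχ'.comp ρ'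
    have g7 := val_eq_of_sub (sqInv A) g5 g6 g4
    have g8 : ind U (fun u => (χ - χ') (ρ u)) = ind U (fun u => χ (ρ u)) - ind U (fun u => χ' (ρ u)) := by
      exact map_sub (indHom U) (fun u => χ (ρ u)) (fun u => χ' (ρ u))
    have q1 : IsChar (fun u => χ (ρ u)) := hχ.comp ρ
    have q2 : IsChar (fun u => χ' (ρ u)) := hχ'.comp ρ
    have i1 : ind U (fun u => χ (ρ u)) = indChar K F N (fun g => χ (ρ' g)) := ind_fixed U _
    have i2 : ind U (fun u => χ' (ρ u)) = indChar K F N (fun g => χ' (ρ' g)) := ind_fixed U _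
    have j1 : IsChar (ind U (fun u => χ (ρ u))) := Pool.Agent.K4H74.SC.isChar_ind U q1
    have j2 : IsChar (ind U (fun u => χ' (ρ u))) := Pool.Agent.K4H74.SC.isChar_ind U q2
    have v1 : (sqInv A).val K N (ind U (fun u => χ (ρ u))) = (sqInv A).val F N (fun g => χ (ρ' g)) := by
      rw [i1]
      exact (sqInv A).val_ind K F N _ g5
    have v2 : (sqInv A).val K N (ind U (fun u => χ' (ρ u)))
        = (sqInv A).val F N (fun g => χ' (ρ' g)) := by
      rw [i2]
      exact (sqInv A).val_ind K F N _ g6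
    rw [SetLike.mem_coe, g8]
    refine ⟨1, Subgroup.mem_bot.mpr rfl, _, _, j1, j2, rfl, ?_⟩
    rw [v1, v2, g7, div_self']
  have h5 := h2 h1
  have h6 : (fun h => (χ - χ') (π h)) = (fun h => χ (π h)) - (fun h => χ' (π h)) := rfl
  rw [h6] at h5
  have h7 := val_eq_of_sub (sqInv A) (hχ.comp π) (hχ'.comp π) h5
  have h8 : (sqInv A).val K N (fun h => χ (π h)) = (sqInv A).val K L χ :=
    (sqInv A).val_infl K L N χ hχ
  have h9 : (sqInv A).val K N (fun h => χ' (π h)) = (sqInv A).val K L χ' :=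
    (sqInv A).val_infl K L N χ' hχ'
  rw [h8, h9] at h7
  exact h7

end Pool.Agent.W2helper23.SG
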