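import Mathlib
import Pool.Agent.W2helper23.SG.App
import Pool.Agent.W2helper23.SG.Main
import Pool.Agent.W2helper27.SG.Com
import Pool.Agent.W2helper85.SG.Same
import Pool.Agent.W2helper53.SG.Sgn
import Pool.Agent.W2helper53.SG.Lin
import Pool.Agent.W2helper92.SG.D4
import Pool.Agent.W2helper98.SG.Ind6
import Pool.Agent.W2helper69.SG.Dih
import Pool.Agent.W2helper2.SG.Qa
import Pool.Agent.W2helper49.SG.Qb
import Pool.Agent.W2helper77.SG.Qc
import Pool.Agent.W2helper56.SG.Frm
import Pool.Agent.W2helper73.SG.Mx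
import Pool.Agent.W2helper11.SG.Two
import Pool.Agent.W2helper11.SG.Grp

/-!
# The sign theorem

For an inductive invariant which is trivial on the faithful linear characters over totally complex
fields the square of the value depends only on the values of the character at the complex
conjugations. Joint work of helpers 2, 11, 23, 27, 49, 53, 56, 69, 73, 77, 85, 92, 98.
-/

set_option autoImplicit false

namespace Pool.Agent.W2helper23.SG

theorem sg7 : P_SG7 := Pool.Agent.W2helper69.SG.SG7 Pool.Agent.W2helper92.SGD4.SG5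

theorem sg8a : P_SG8A := Pool.Agent.W2helper2.SG.SG8A Pool.Agent.W2helper98.SG.SG6

theorem sg8 : P_SG8 :=
  Pool.Agent.W2helper77.SG.SG8 sg8a
    (Pool.Agent.W2helper49.SG.SG8B Pool.Agent.W2helper98.SG.SG6 sg7 sg8a)

theorem sg3 : P_SG3 :=
  Pool.Agent.W2helper53.SG.SG3 (Pool.Agent.W2helper85.SG.SG2 Pool.Agent.W2helper27.SG.SG1)

theorem sg11 : P_SG11 :=
  Pool.Agent.W2helper11.SGT.SG11 Pool.Agent.W2helper98.SG.SG6
    (Pool.Agent.W2helper56.SG.SG9 Pool.Agent.W2helper98.SG.SG6) Pool.Agent.W2helper73.SG.SG10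

/-- **The sign theorem** -/
theorem sign : SignThm := by
  intro M _ A hC K L _ _ _ _ _ _ χ χ' hχ hχ' h0
  exact sign_of sg3 Pool.Agent.W2helper53.SG.SG4 sg8 sg11 Pool.Agent.W2helper11.SGT.SG12 hC K L
    hχ hχ' h0

end Pool.Agent.W2helper23.SG
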