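import Mathlib
import Pool.Agent.W2helper11.SG.Grp
import Pool.Agent.W2helper23.SG.App

/-!
# The values of an inductive invariant depend only on the values of the characters at the elements
of `2`-power order
-/

set_option autoImplicit false
set_option linter.unusedSectionVars false

namespace Pool.Agent.W2helper23.SG

open NumberField NumberField.ComplexEmbedding Pool.Agent.R389 Pool.Agent.K4H74.ST
  Pool.Agent.K4H74 Pool.Agent.K4H74.SK Pool.Agent.K4H34.AL Pool.Agent.K4H77.SL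
  Pool.Agent.W2helper23.DEL
open Pool.Agent.H302R2 Pool.Agent.H302R3 Pool.Agent.H541R3.ART Pool.Agent.W446.AS

/-- **The exact theorem**: characters which agree on the elements of `2`-power order have the same
value, for an invariant which is trivial over the totally complex fields. -/
theorem exact_two {M : Type} [CommGroup M] {A : ArtinInvariant M} (hC : TrivComplex A)
    (K L : Type) [Field K] [NumberField K] [Field L] [NumberField L] [Algebra K L] [IsGalois K L]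
    {χ χ' : (L ≃ₐ[K] L) → ℂ} (hχ : IsChar χ) (hχ' : IsChar χ')
    (h0 : ∀ (g : L ≃ₐ[K] L) (k : ℕ), g ^ (2 ^ k) = 1 → χ g = χ' g) :
    A.val K L χ = A.val K L χ' := by
  classical
  obtain ⟨N, i1, i2, i3, i4, i5, i6, ⟨j, hj⟩, hN⟩ := exists_comm K L
  have hfinN : FiniteDimensional K N := Module.Finite.of_restrictScalars_finite ℚ K N
  have hfinL : FiniteDimensional K L := Module.Finite.of_restrictScalars_finite ℚ K L
  let π : (N ≃ₐ[K] N) →* (L ≃ₐ[K] L) := AlgEquiv.restrictNormalHom L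
  have hX : ∀ c ∈ CC K N, c * c = 1 ∧ c ≠ 1 := by
    rintro c ⟨φ, hφ⟩
    refine ⟨isConj_sq hφ, fun h => ?_⟩
    have h1 : c j = - j := by
      refine sqrt_neg hφ ?_ ?_
      · rw [hj, map_neg, map_one]; simp
      · rw [hj, map_neg, map_one]; simp
    rw [h] at h1
    have h3 : j = 0 := self_eq_neg.mp h1
    rw [h3, mul_zero] at hj
    exact one_ne_zero (neg_eq_zero.mp hj.symm)
  have hcom : ∀ c ∈ CC K N, ∀ h : N ≃ₐ[K] N, h * c = c * h → π h * π h = 1 := by
    intro c hc h hh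
    rcases hN c hc h hh with h1 | h1
    · change π h = 1 at h1
      rw [h1, one_mul]
    · change π h = π c at h1
      rw [h1, ← map_mul, (hX c hc).1, map_one]
  have hv : Virt (χ - χ') := sub_mem hχ.virt hχ'.virt
  have h1 := Pool.Agent.W2helper11.SGT.SG12 (N ≃ₐ[K] N) (L ≃ₐ[K] L) (CC K N) hX
    (fun c hc g => CC_conj hc g) π hcom (χ - χ') hv
  have h2 : JJ (CC K N) ⊔ AddSubgroup.closure {f | ∃ (U : Subgroup (N ≃ₐ[K] N))
      (ρ : U →* (L ≃ₐ[K] L)), (∀ u, ∃ k : ℕ, ρ u ^ (2 ^ k) = 1) ∧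
        (∀ u : U, (u : N ≃ₐ[K] N) ∈ CC K N → (χ - χ') (ρ u) = (χ - χ') (π u)) ∧
        f = ind U (fun u => (χ - χ') (ρ u))} ≤ TT A (K := K) (L := N) ⊥ := by
    refine sup_le (JJ_le hC) ?_
    rw [AddSubgroup.closure_le]
    rintro f ⟨U, ρ, hρ, -, rfl⟩
    have h3 : (fun u => (χ - χ') (ρ u)) = 0 := by
      funext u
      obtain ⟨k, hk⟩ := hρ u
      rw [Pi.sub_apply, h0 _ k hk, sub_self]
      rfl
    rw [h3]
    have h4 : ind U (0 : U → ℂ) = 0 := (indHom U).map_zero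
    rw [h4]
    exact zero_mem _
  have h5 := h2 h1
  have h6 : (fun h => (χ - χ') (π h)) = (fun h => χ (π h)) - (fun h => χ' (π h)) := rfl
  rw [h6] at h5
  have h7 := val_eq_of_sub A (hχ.comp π) (hχ'.comp π) h5
  have h8 : A.val K N (fun h => χ (π h)) = A.val K L χ := A.val_infl K L N χ hχ
  have h9 : A.val K N (fun h => χ' (π h)) = A.val K L χ' := A.val_infl K L N χ' hχ'
  rw [h8, h9] at h7
  exact h7

/-- the exact relation for a family which contains the faithful linear characters over totally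
complex fields -/
theorem two_form {Mg : Type} [CommGroup Mg] (A : ArtinInvariant Mg)
    (T : Pair → Prop)
    (h2 : ∀ E : Ext, IsTotallyComplex E.K → ∀ ψ : G E →* ℂˣ, Function.Injective ψ →
      T ⟨E, lin ψ⟩) {E : Ext} {χ χ' : G E → ℂ} (hχ : IsChr χ) (hχ' : IsChr χ')
    (h0 : ∀ (g : G E) (k : ℕ), g ^ (2 ^ k) = 1 → χ g = χ' g) :
    ∃ (r : ℕ) (y : Fin r → Pair) (k : Fin r → ℤ), (∀ i, T (y i)) ∧
      pval A ⟨E, χ⟩ = pval A ⟨E, χ'⟩ * ∏ i, pval A (y i) ^ k i := by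
  let P : Subgroup Mg := Subgroup.closure {y : Mg | ∃ x : Pair, T x ∧ y = pval A x}
  let B : ArtinInvariant (Mg ⧸ P) := mapInv (QuotientGroup.mk' P) A
  have hB : ∀ x : Pair, T x → B.val x.1.K x.1.L x.2 = 1 := by
    intro x hx
    exact (QuotientGroup.eq_one_iff (N := P) _).mpr (Subgroup.subset_closure ⟨x, hx, rfl⟩)
  have i2 : TrivComplex B := fun K L _ _ _ _ _ _ hK ψ hψ => hB _ (h2 ⟨K, L⟩ hK ψ hψ)
  have h3 := exact_two i2 E.K E.L (isChr_iff.mp hχ) (isChr_iff.mp hχ') h0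
  have h4 : ((pval A ⟨E, χ'⟩)⁻¹ * pval A ⟨E, χ⟩) ∈ P := by
    rw [← QuotientGroup.eq]
    exact h3.symm
  obtain ⟨r, y, k, hy, h5⟩ := closure_form A T h4
  exact ⟨r, y, k, hy, by rw [← h5, mul_inv_cancel_left]⟩

lemma val_nsmul {M : Type} [CommGroup M] (A : ArtinInvariant M) {K L : Type} [Field K]
    [NumberField K] [Field L] [NumberField L] [Algebra K L] [IsGalois K L]
    {χ : (L ≃ₐ[K] L) → ℂ} (hχ : IsChar χ) (n : ℕ) : A.val K L (n • χ) = A.val K L χ ^ n := by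
  induction n with
  | zero => rw [zero_smul, pow_zero, val_zero]
  | succ n ih =>
    rw [succ_nsmul, A.val_add K L _ _ (Pool.Agent.W2helper1.SI.IsChar.nsmul hχ n) hχ, ih, pow_succ]

/-- extensions of odd degree: the value is a power of the value of the trivial character -/
theorem val_odd_deg {M : Type} [CommGroup M] {A : ArtinInvariant M} (hC : TrivComplex A)
    (K L : Type) [Field K] [NumberField K] [Field L] [NumberField L] [Algebra K L] [IsGalois K L]
    (hodd : Odd (Module.finrank K L)) {χ : (L ≃ₐ[K] L) → ℂ} (hχ : IsChar χ) :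
    ∃ n : ℕ, χ 1 = n ∧ A.val K L χ = A.val K K (fun _ => 1) ^ n := by
  have hfinL : FiniteDimensional K L := Module.Finite.of_restrictScalars_finite ℚ K L
  have hu : IsChar (lc (1 : (L ≃ₐ[K] L) →* ℂˣ)) := IsChar.lc 1
  obtain ⟨n, hn⟩ : ∃ n : ℕ, χ 1 = n := by
    obtain ⟨V, _, _, _, ρ, rfl⟩ := hχ
    refine ⟨Module.finrank ℂ V, ?_⟩
    change LinearMap.trace ℂ V (ρ 1) = _
    rw [map_one, LinearMap.trace_one]
  refine ⟨n, hn, ?_⟩
  have h1 := exact_two hC K L hχ (Pool.Agent.W2helper1.SI.IsChar.nsmul hu n) (by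
    intro g k hg
    have hg1 : g = 1 := by
      have h2 : orderOf g ∣ 2 ^ k := orderOf_dvd_of_pow_eq_one hg
      have h3 : orderOf g ∣ Module.finrank K L := by
        rw [← IsGalois.card_aut_eq_finrank]
        exact orderOf_dvd_natCard g
      have h4 : Nat.Coprime (2 ^ k) (Module.finrank K L) :=
        Nat.Coprime.pow_left k (Nat.coprime_two_left.mpr hodd)
      exact orderOf_eq_one_iff.mp (Nat.eq_one_of_dvd_coprimes h4 h2 h3)
    rw [hg1, hn, Pi.smul_apply]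
    simp [lc])
  rw [h1, val_nsmul A hu]
  congr 1
  have h := A.val_infl K K L (lc 1) (IsChar.lc 1)
  have h3 : lc (1 : (K ≃ₐ[K] K) →* ℂˣ) = fun _ => 1 := by
    funext g
    simp [lc]
  rw [h3] at h
  rw [← h]
  congr 1

lemma hom_rel' {Mg Mh : Type} [CommGroup Mg] [CommGroup Mh] (f : Mg →* Mh) (A : ArtinInvariant Mg)
    (B : ArtinInvariant Mh) (h : ∀ x, pval B x = f (pval A x)) {x x₀ : Pair} {r : ℕ}
    {y : Fin r → Pair} {k : Fin r → ℤ}
    (h1 : pval A x = pval A x₀ * ∏ i, pval A (y i) ^ k i) :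
    pval B x = pval B x₀ * ∏ i, pval B (y i) ^ k i := by
  have h2 := congrArg f h1
  rw [map_mul, map_prod] at h2
  rw [h, h, h2]
  congr 1
  exact Finset.prod_congr rfl fun i _ => by rw [map_zpow, h]

lemma univ_rel' {F : Type} [Field F] {x x₀ : Pair} {r : ℕ}
    {y : Fin r → Pair} {k : Fin r → ℤ}
    (h : pval (univInv F) x = pval (univInv F) x₀ * ∏ i, pval (univInv F) (y i) ^ k i) :
    (∀ s : ℂ, 1 < s.re → ∀ (l l₀ : ℂ) (m : Fin r → ℂ), HasSum (logTerm x.2 s) l →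
      HasSum (logTerm x₀.2 s) l₀ → (∀ i, HasSum (logTerm (y i).2 s) (m i)) →
      l = l₀ + ∑ i, k i * m i) ∧
    ∀ M : Mot F,
      (∀ τ, pval (ratInv M τ) x = pval (ratInv M τ) x₀ * ∏ i, pval (ratInv M τ) (y i) ^ k i) ∧
      (∀ σ τ, pval (defInv M σ τ) x = pval (defInv M σ τ) x₀ *
        ∏ i, pval (defInv M σ τ) (y i) ^ k i) := by
  refine ⟨fun s hs l l₀ m hl hl₀ hm => ?_, fun M => ⟨fun τ => ?_, fun σ τ => ?_⟩⟩
  · have h1 := hom_rel' (MonoidHom.fst _ _) (univInv F) logInv (fun _ => rfl) h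
    have h2 := congrFun (congrArg Multiplicative.toAdd h1) ⟨s, hs⟩
    have h3 : (Multiplicative.toAdd (pval logInv x) : {s : ℂ // 1 < s.re} → ℂ) ⟨s, hs⟩ = l :=
      pval_log hs hl
    have h4 : (Multiplicative.toAdd (pval logInv x₀ *
        ∏ i, pval logInv (y i) ^ k i) : {s : ℂ // 1 < s.re} → ℂ) ⟨s, hs⟩
        = l₀ + ∑ i, k i * m i := by
      rw [toAdd_mul, Pi.add_apply, pval_log hs hl₀, toAdd_prod, Finset.sum_apply]
      congr 1
      refine Finset.sum_congr rfl fun i _ => ?_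
      rw [toAdd_zpow, Pi.smul_apply, pval_log hs (hm i), zsmul_eq_mul]
    rw [← h3, ← h4]
    exact h2
  · exact hom_rel' (((Pi.evalMonoidHom (fun _ : F →+* ℂ => ℂˣ) τ).comp (MonoidHom.fst _ _)).comp
      ((Pi.evalMonoidHom (fun _ : Mot F => ((F →+* ℂ) → ℂˣ) × ((ℂ ≃+* ℂ) × (F →+* ℂ) → ℂˣ)) M).comp
        (MonoidHom.snd _ _))) (univInv F) (ratInv M τ) (fun _ => rfl) h
  · exact hom_rel' (((Pi.evalMonoidHom (fun _ : (ℂ ≃+* ℂ) × (F →+* ℂ) => ℂˣ) (σ, τ)).comp
      (MonoidHom.snd _ _)).comp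
      ((Pi.evalMonoidHom (fun _ : Mot F => ((F →+* ℂ) → ℂˣ) × ((ℂ ≃+* ℂ) × (F →+* ℂ) → ℂˣ)) M).comp
        (MonoidHom.snd _ _))) (univInv F) (defInv M σ τ) (fun _ => rfl) h

end Pool.Agent.W2helper23.SG
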